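import Pool.Agent.U54.MT.W

/-! Weighted sums over lists of natural numbers. -/

set_option autoImplicit false

namespace Pool.Agent.U54.MT

open Finset

variable {R : Type} [CommRing R]

/-- the weighted sum of `K` over the lists of numbers `< B` -/
def sm (B : ℕ) : List (ℕ → R) → (List ℕ → R) → R
  | [], K => K []
  | u :: w, K => ∑ a ∈ range B, u a * sm B w (fun e => K (a :: e))

theorem sm_congr (B : ℕ) (w : List (ℕ → R)) : ∀ K L : List ℕ → R,
    (∀ e, e.length = w.length → K e = L e) → sm B w K = sm B w L := by
  induction w with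
  | nil => intro K L h; rw [sm, sm]; exact h [] rfl
  | cons u w ih =>
    intro K L h
    rw [sm, sm]
    refine sum_congr rfl fun a _ => ?_
    rw [ih _ (fun e => L (a :: e)) (fun e he => h _ (by simp [he]))]

theorem sm_add (B : ℕ) (w : List (ℕ → R)) : ∀ K L : List ℕ → R,
    sm B w (fun e => K e + L e) = sm B w K + sm B w L := by
  induction w with
  | nil => intro K L; rw [sm, sm, sm]
  | cons u w ih =>
    intro K L
    rw [sm, sm, sm, ← sum_add_distrib]
    refine sum_congr rfl fun a _ => ?_
    rw [ih, mul_add]

theorem sm_mul (B : ℕ) (c : R) (w : List (ℕ → R)) : ∀ K : List ℕ → R,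
    sm B w (fun e => c * K e) = c * sm B w K := by
  induction w with
  | nil => intro K; rw [sm, sm]
  | cons u w ih =>
    intro K
    rw [sm, sm, mul_sum]
    refine sum_congr rfl fun a _ => ?_
    rw [ih]
    ring

theorem sm_zero (B : ℕ) (w : List (ℕ → R)) : sm B w (fun _ => (0 : R)) = 0 := by
  have := sm_mul B (0 : R) w (fun _ => (0 : R))
  simpa using this

theorem sm_sum (B : ℕ) {ι : Type} (s : Finset ι) (w : List (ℕ → R)) (K : ι → List ℕ → R) :
    sm B w (fun e => ∑ i ∈ s, K i e) = ∑ i ∈ s, sm B w (K i) := by
  classical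
  induction s using Finset.induction_on with
  | empty => simp [sm_zero]
  | insert a s ha ih =>
    rw [sum_insert ha, ← ih, ← sm_add]
    congr 1
    funext t
    rw [sum_insert ha]

theorem sm_MA (B : ℕ) (K : List ℕ → R) : MA (fun w => sm B w K) := by
  intro l u v t
  induction l generalizing K with
  | nil =>
    simp only [List.nil_append]
    rw [sm, sm, sm, ← sum_add_distrib]
    refine sum_congr rfl fun a _ => ?_
    rw [Pi.add_apply, add_mul]
  | cons c l ih =>
    simp only [List.cons_append]
    rw [sm, sm, sm, ← sum_add_distrib]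
    refine sum_congr rfl fun a _ => ?_
    have h := ih (fun e => K (a :: e))
    simp only at h
    rw [h, mul_add]

theorem ins_add {α : Type} (a : α) (w : List α) : ∀ K L : List α → R,
    ins a w (fun t => K t + L t) = ins a w K + ins a w L := by
  induction w with
  | nil => intro K L; simp [ins]
  | cons b w ih => intro K L; rw [ins, ins, ins, ih]; ring

theorem ins_mul {α : Type} (c : R) (a : α) (w : List α) : ∀ K : List α → R,
    ins a w (fun t => c * K t) = c * ins a w K := by
  induction w with
  | nil => intro K; simp [ins]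
  | cons b w ih => intro K; rw [ins, ins, ih]; ring

theorem ins_sum {α ι : Type} (s : Finset ι) (c : ι → R) (a : α) (w : List α) (K : ι → List α → R) :
    ins a w (fun t => ∑ i ∈ s, c i * K i t) = ∑ i ∈ s, c i * ins a w (K i) := by
  classical
  induction s using Finset.induction_on with
  | empty =>
    have := ins_mul (0 : R) a w (fun _ => (0 : R))
    simpa using this
  | insert j s hj ih =>
    rw [sum_insert hj, ← ih, ← ins_mul, ← ins_add]
    congr 1
    funext t
    rw [sum_insert hj]

theorem du_mul {α : Type} (c : R) (w : List α) : ∀ K : List α → R,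
    du w (fun t => c * K t) = c * du w K := by
  induction w with
  | nil => intro K; simp [du]
  | cons b w ih => intro K; rw [du, du, ih]; ring

theorem du_sum {α ι : Type} (s : Finset ι) (c : ι → R) (w : List α) (K : ι → List α → R) :
    du w (fun t => ∑ i ∈ s, c i * K i t) = ∑ i ∈ s, c i * du w (K i) := by
  classical
  induction s using Finset.induction_on with
  | empty =>
    have := du_mul (0 : R) w (fun _ => (0 : R))
    simpa using this
  | insert j s hj ih =>
    rw [sum_insert hj, ← ih, ← du_mul, ← du_add]
    congr 1
    funext t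
    rw [sum_insert hj]

theorem sm_ins (B : ℕ) (u : ℕ → R) (w : List (ℕ → R)) : ∀ K : List ℕ → R,
    ins u w (fun t => sm B t K) = ∑ b ∈ range B, u b * sm B w (fun e => ins b e K) := by
  induction w with
  | nil => intro K; rw [ins, sm]; rfl
  | cons v w ih =>
    intro K
    have e1 : ins u w (fun s => sm B (v :: s) K) =
        ∑ a ∈ range B, v a * ∑ b ∈ range B, u b * sm B w (fun e => ins b e (fun s => K (a :: s))) := by
      have h1 := ins_sum (range B) v u w (fun a s => sm B s (fun e => K (a :: e)))
      have h2 : (fun s => sm B (v :: s) K) = fun s => ∑ a ∈ range B, v a * sm B s (fun e => K (a :: e)) := by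
        funext s
        rw [sm]
      rw [h2, h1]
      refine sum_congr rfl fun a _ => ?_
      rw [ih]
    rw [ins, e1, sm]
    have e2 : ∀ b, sm B (v :: w) (fun e => ins b e K) =
        sm B (v :: w) (fun e => K (b :: e)) +
          ∑ a ∈ range B, v a * sm B w (fun e => ins b e (fun s => K (a :: s))) := by
      intro b
      rw [sm, sm, ← sum_add_distrib]
      refine sum_congr rfl fun a _ => ?_
      rw [← mul_add, ← sm_add]
      rfl
    simp only [e2, mul_add, sum_add_distrib]
    congr 1
    simp only [mul_sum]
    rw [sum_comm]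
    refine sum_congr rfl fun a _ => sum_congr rfl fun b _ => ?_
    ring

/-- the letter of the weights `x ^ a` -/
def P (x : R) : ℕ → R := fun a => x ^ a

/-- the sum over the splittings of one entry -/
def SP (B : ℕ) : List ℕ → (List ℕ → R) → R
  | [], _ => 0
  | c :: e, K => (∑ a ∈ range B, ∑ b ∈ range B, if a + b = c then K (a :: b :: e) else 0) +
      SP B e (fun s => K (c :: s))

theorem sm_du (B : ℕ) (ys : List R) : ∀ K : List ℕ → R, (∀ e : List ℕ, B ≤ e.sum → K e = 0) →
    du (ys.map P) (fun w => sm B w K) = sm B (ys.map P) (fun e => SP B e K) := by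
  induction ys with
  | nil => intro K _; rw [List.map_nil, du, sm, SP]
  | cons y ys ih =>
    intro K hK
    have e1 : du (ys.map P) (fun s => sm B (P y :: s) K) =
        ∑ a ∈ range B, P y a * sm B (ys.map P) (fun e => SP B e (fun s => K (a :: s))) := by
      have h1 := du_sum (range B) (P y) (ys.map P) (fun a s => sm B s (fun e => K (a :: e)))
      have h2 : (fun s => sm B (P y :: s) K) =
          fun s => ∑ a ∈ range B, P y a * sm B s (fun e => K (a :: e)) := by
        funext s
        rw [sm]
      rw [h2, h1]
      refine sum_congr rfl fun a _ => ?_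
      rw [ih _ (fun e he => hK _ (by simp; omega))]
    rw [List.map_cons, du, e1, sm, sm]
    have e2 : ∀ c, sm B (ys.map P) (fun e => SP B (c :: e) K) =
        (∑ a ∈ range B, ∑ b ∈ range B,
          if a + b = c then sm B (ys.map P) (fun e => K (a :: b :: e)) else 0) +
        sm B (ys.map P) (fun e => SP B e (fun s => K (c :: s))) := by
      intro c
      have h3 : (fun e => SP B (c :: e) K) = fun e =>
          (∑ a ∈ range B, ∑ b ∈ range B, if a + b = c then K (a :: b :: e) else 0) +
            SP B e (fun s => K (c :: s)) := by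
        funext e
        rw [SP]
      rw [h3, sm_add, sm_sum]
      congr 1
      refine sum_congr rfl fun a _ => ?_
      rw [sm_sum]
      refine sum_congr rfl fun b _ => ?_
      by_cases h : a + b = c
      · simp only [h, if_true]
      · simp only [h, if_false]
        exact sm_zero B _
    simp only [e2, mul_add, sum_add_distrib]
    congr 1
    simp only [sm, mul_sum]
    have e3 : ∀ a ∈ range B, ∀ b ∈ range B,
        P y a * (P y b * sm B (ys.map P) (fun e => K (a :: b :: e))) =
        ∑ c ∈ range B, P y c * (if a + b = c then sm B (ys.map P) (fun e => K (a :: b :: e)) else 0) := by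
      intro a _ b _
      by_cases h : a + b < B
      · rw [sum_eq_single_of_mem (a + b) (mem_range.2 h)]
        · rw [if_pos rfl]
          unfold P
          rw [pow_add]
          ring
        · intro c _ hc
          rw [if_neg (fun h' => hc h'.symm), mul_zero]
      · have h4 : sm B (ys.map P) (fun e => K (a :: b :: e)) = 0 := by
          rw [sm_congr B _ _ (fun _ => 0), sm_zero]
          intro e _
          exact hK _ (by simp; omega)
        rw [h4]
        simp
    rw [sum_congr rfl fun a ha => sum_congr rfl (e3 a ha)]
    rw [sum_congr rfl fun a _ => sum_comm]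
    rw [sum_comm]

/-- the marked words with all letters marked -/
theorem WW_mem {α : Type} (B : ℕ) {I : Ideal R} (E : ℕ → R) (H : α → ℕ → R) (hH : ∀ i a, H i a ∈ I)
    (m : ℕ) : ∀ (x : α) (xs : List α) (F : List ℕ → R),
    WW E H m x xs m (fun t => sm B t F) ∈ I ^ (m - xs.length) := by
  induction m with
  | zero =>
    intro x xs F
    rw [Nat.zero_sub, pow_zero, Ideal.one_eq_top]
    trivial
  | succ m ih =>
    intro x xs F
    have e : ∀ (u : ℕ → R) (z : α) (zs : List α), WW E H m z zs m (fun w => sm B (u :: w) F) =
        ∑ a ∈ range B, u a * WW E H m z zs m (fun w => sm B w (fun e => F (a :: e))) := by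
      intro u z zs
      rw [← WW_sum]
      congr 1
    have hHm : ∀ (i z : α) (zs : List α), WW E H m z zs m (fun w => sm B (H i :: w) F) ∈
        I ^ (m + 1 - zs.length) := by
      intro i z zs
      rw [e]
      refine Ideal.sum_mem _ fun a _ => ?_
      have h1 : H i a * WW E H m z zs m (fun w => sm B w (fun e => F (a :: e))) ∈
          I ^ (m - zs.length + 1) := by
        rw [pow_succ']
        exact Ideal.mul_mem_mul (hH i a) (ih z zs _)
      exact Ideal.pow_le_pow_right (by omega) h1
    cases xs with
    | nil =>
      rw [WW_sn, WW_gt E H m x [] (m + 1) _ (by omega), zero_add]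
      exact hHm x x []
    | cons y ys =>
      rw [WW_sc, WW_gt E H m x (y :: ys) (m + 1) _ (by omega), zero_add]
      refine Ideal.add_mem _ (hHm x x (y :: ys)) (Ideal.add_mem _ ?_ ?_)
      · rw [e]
        refine Ideal.sum_mem _ fun a _ => Ideal.mul_mem_left _ _ ?_
        have := ih y ys (fun e => F (a :: e))
        simpa using this
      · exact Ideal.pow_le_pow_right (by simp; omega) (hHm x y ys)

theorem RP_mem [Algebra ℚ R] {α : Type} (B : ℕ) {I : Ideal R} (x : α → R) (y : R)
    (hx : ∀ i, x i - y ∈ I) {m : ℕ} {F : List ℕ → R}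
    (hF : ∀ (b : ℕ) (e : List ℕ), e.length + 1 = m → ins b e F = 0) (i : α) (is : List α) :
    RP m i is (fun w => sm B (w.map fun j => P (x j)) F) ∈ I ^ (m - is.length) := by
  have hH : ∀ (j : α) (a : ℕ), (fun (j : α) (a : ℕ) => x j ^ a - y ^ a) j a ∈ I := by
    intro j a
    exact Ideal.mem_of_dvd _ (sub_dvd_pow_sub_pow (x j) y a) (hx j)
  have h1 := RP_sum (P y) (fun (j : α) (a : ℕ) => x j ^ a - y ^ a) m i is _ (sm_MA B F)
  have h2 : (fun w : List α => sm B (w.map fun j => P (x j)) F) =
      fun w : List α => sm B (w.map fun j => P y + fun a => x j ^ a - y ^ a) F := by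
    funext w
    congr 2
    funext j a
    simp [P]
  rw [h2, h1]
  refine Ideal.sum_mem _ fun q hq => ?_
  rcases Nat.lt_or_ge q m with h | h
  · obtain ⟨m', rfl⟩ : ∃ m', m = m' + 1 := ⟨m - 1, by omega⟩
    have h3 := WW_ins (P y) (fun (j : α) (a : ℕ) => x j ^ a - y ^ a) m' i is q (fun w => sm B w F)
    have h4 : WW (P y) (fun (j : α) (a : ℕ) => x j ^ a - y ^ a) m' i is q
        (fun t => ins (P y) t (fun w => sm B w F)) = 0 := by
      rw [WW_congr _ _ m' i is q _ (fun _ => 0), WW_zero]
      intro t ht
      rw [sm_ins]
      refine sum_eq_zero fun b _ => ?_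
      rw [sm_congr B t _ (fun _ => 0), sm_zero, mul_zero]
      intro e he
      exact hF b e (by omega)
    rw [h4] at h3
    have h5 : ((m' : ℚ) + 1 - q) ≠ 0 := by
      have : (q : ℚ) < m' + 1 := by exact_mod_cast h
      linarith
    have h6 : (((m' : ℚ) + 1 - q)) • WW (P y) (fun (j : α) (a : ℕ) => x j ^ a - y ^ a) (m' + 1) i is q
        (fun w => sm B w F) = 0 := by
      rw [Algebra.smul_def, map_sub, map_add, map_natCast, map_one, map_natCast]
      exact h3.symm
    have h7 : WW (P y) (fun (j : α) (a : ℕ) => x j ^ a - y ^ a) (m' + 1) i is q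
        (fun w => sm B w F) = 0 := by
      rw [← one_smul ℚ (WW _ _ _ _ _ _ _), ← inv_mul_cancel₀ h5, mul_smul, h6, smul_zero]
    rw [h7]
    exact Ideal.zero_mem _
  · have h3 : q = m := by
      have := mem_range.1 hq
      omega
    subst h3
    exact WW_mem B (P y) _ hH q i is F

theorem RR_mem [Algebra ℚ R] {α : Type} (B : ℕ) {I : Ideal R} (x : α → R) (y : R)
    (hx : ∀ i, x i - y ∈ I) {m : ℕ} (hm : 1 ≤ m) {F : List ℕ → R}
    (hF : ∀ (b : ℕ) (e : List ℕ), e.length + 1 = m → ins b e F = 0) (n : ℕ) :
    ∀ is : List α, is.length = n →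
    RR m is (fun w => sm B (w.map fun j => P (x j)) F) ∈ I ^ (m + 1 - n) := by
  induction n with
  | zero =>
    intro is h
    rw [List.length_eq_zero_iff.1 h]
    obtain ⟨m', rfl⟩ : ∃ m', m = m' + 1 := ⟨m - 1, by omega⟩
    rw [RR]
    exact Ideal.zero_mem _
  | succ n ih =>
    intro is h
    cases is with
    | nil => simp at h
    | cons i is =>
      have h1 := RP_eq m i is (fun w => sm B (w.map fun j => P (x j)) F)
      have h2 : RR m (i :: is) (fun w => sm B (w.map fun j => P (x j)) F) =
          RP m i is (fun w => sm B (w.map fun j => P (x j)) F) -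
            RR m ((i :: is).dropLast) (fun w => sm B (w.map fun j => P (x j)) F) := by
        rw [h1]
        ring
      have hl : is.length = n := by simpa using h
      rw [h2]
      refine Ideal.sub_mem _ ?_ ?_
      · have := RP_mem B x y hx hF i is
        rwa [hl, show m - n = m + 1 - (n + 1) by omega] at this
      · exact Ideal.pow_le_pow_right (by omega) (ih _ (by simp [hl]))

end Pool.Agent.U54.MT
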