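import Pool.Agent.R241.DL6
import Pool.Agent.U54.MT.S

/-! The relations between the coefficients at the words with one letter `x₀` more. -/

set_option autoImplicit false

namespace Pool.Agent.U54.MT

open Finset Pool.Agent.H777R4.DM Pool.Agent.R241.DL

attribute [local instance 100] LieRing.ofAssociativeRing

/-- the sum over the insertions of `x₀` -/
theorem co_x_mul (i : Fin 2) (Q : A) (v : List (Fin 2)) :
    co (x i * Q) v = match v with
      | [] => 0
      | a :: t => if i = a then co Q t else 0 := by
  induction Q using al_induction with
  | h1 l =>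
    unfold x
    rw [← R0.wd_append, List.singleton_append, R0.co_wd]
    cases v with
    | nil => simp
    | cons a t =>
      simp only [R0.co_wd]
      by_cases h : i = a
      · subst h
        simp
      · simp [h]
  | h2 P Q hP hQ =>
    rw [mul_add, co_add, hP, hQ]
    cases v with
    | nil => simp
    | cons a t =>
      simp only [co_add]
      split_ifs <;> simp
  | h3 c P hP =>
    rw [mul_smul_comm, co_smul, hP]
    cases v with
    | nil => simp
    | cons a t =>
      simp only [co_smul]
      split_ifs <;> simp

theorem co_d0 (P : A) (v : List (Fin 2)) : co (R0.d0 P) v = ins 0 v (co P) := by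
  induction P using al_induction with
  | h1 u =>
    rw [R0.d0_wd]
    have e : (co (wd u) : List (Fin 2) → ℚ) = fun t => if u = t then 1 else 0 := by
      funext t
      rw [R0.co_wd]
    rw [e]
    induction u generalizing v with
    | nil =>
      rw [R0.d0W, co_zero]
      have : ∀ (v : List (Fin 2)) (K : List (Fin 2) → ℚ), (∀ t, t ≠ [] → K t = 0) → ins 0 v K = 0 := by
        intro v
        induction v with
        | nil => intro K h; exact h _ (by simp)
        | cons a v ih =>
          intro K h
          rw [ins, h _ (by simp), ih _ (fun t _ => h _ (by simp)), add_zero]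
      rw [this]
      intro t ht
      rw [if_neg (fun h => ht h.symm)]
    | cons i u ih =>
      rw [R0.d0W, co_add, co_x_mul]
      cases v with
      | nil =>
        rw [ins]
        by_cases hi : i = 1
        · subst hi
          simp [co_zero]
        · have hi0 : i = 0 := by omega
          subst hi0
          simp only [if_neg hi, R0.co_wd]
          simp
      | cons a v =>
        rw [ins]
        have h2 : ins 0 v (fun t => if i :: u = a :: t then (1 : ℚ) else 0) =
            if i = a then co (R0.d0W u) v else 0 := by
          by_cases h : i = a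
          · subst h
            rw [if_pos rfl, ih v (by funext t; rw [R0.co_wd])]
            congr 1
            funext t
            simp
          · rw [if_neg h]
            have := ins_mul (0 : ℚ) 0 v (fun _ => (0 : ℚ))
            have h4 : (fun t : List (Fin 2) => if i :: u = a :: t then (1 : ℚ) else 0) =
                fun _ => (0 : ℚ) * 0 := by
              funext t
              simp [h]
            rw [h4, this, zero_mul]
        rw [h2]
        congr 1
        by_cases hi : i = 1
        · subst hi
          simp [co_zero]
        · have hi0 : i = 0 := by omega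
          subst hi0
          simp only [if_neg hi, R0.co_wd]
          simp
  | h2 P Q hP hQ =>
    rw [map_add, co_add, hP, hQ, ← ins_add]
    congr 1
  | h3 c P hP =>
    rw [map_smul, co_smul, hP, ← ins_mul]
    congr 1

theorem ins_rep (c : ℕ) (w : List (Fin 2)) : ∀ K : List (Fin 2) → ℚ,
    ins 0 (List.replicate c 1 ++ w) K =
      ∑ i ∈ range c, K (List.replicate i 1 ++ 0 :: (List.replicate (c - i) 1 ++ w)) +
        ins 0 w (fun t => K (List.replicate c 1 ++ t)) := by
  induction c with
  | zero => intro K; simp
  | succ c ih =>
    intro K
    rw [List.replicate_succ, List.cons_append, ins, ih, sum_range_succ']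
    simp only [List.replicate_succ, List.cons_append, Nat.add_sub_add_right, List.replicate_zero,
      List.nil_append, Nat.sub_zero]
    ring

/-- the sum over the splittings of one entry -/
def SPn {R : Type} [CommRing R] : List ℕ → (List ℕ → R) → R
  | [], _ => 0
  | c :: e, K => (∑ i ∈ range (c + 1), K (i :: (c - i) :: e)) + SPn e (fun s => K (c :: s))

theorem SPn_congr (L : List ℕ) : ∀ K K' : List ℕ → ℚ, (∀ e, e ≠ [] → K e = K' e) →
    SPn L K = SPn L K' := by
  induction L with
  | nil => intro K K' _; rfl
  | cons c L ih =>
    intro K K' h
    rw [SPn, SPn, ih _ (fun s => K' (c :: s)) (fun e _ => h _ (by simp))]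
    congr 1
    exact sum_congr rfl fun i _ => h _ (by simp)

theorem blk_cons {a : ℕ} {e : List ℕ} (h : e ≠ []) : blk (a :: e) = List.replicate a 1 ++ 0 :: blk e := by
  cases e with
  | nil => exact absurd rfl h
  | cons b l => rfl

theorem ins_blk (L : List ℕ) (hL : L ≠ []) : ∀ K : List (Fin 2) → ℚ,
    ins 0 (blk L) K = SPn L (fun e => K (blk e)) := by
  induction L with
  | nil => exact absurd rfl hL
  | cons a L ih =>
    intro K
    cases L with
    | nil =>
      have h1 := ins_rep a [] K
      rw [List.append_nil] at h1
      rw [blk, h1, SPn, SPn, ins, add_zero, sum_range_succ]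
      congr 1
      · refine sum_congr rfl fun i _ => ?_
        rw [blk_cons (by simp), blk, List.append_nil]
      · rw [blk_cons (by simp), Nat.sub_self]
        rfl
    | cons b l =>
      have h3 : SPn (a :: b :: l) (fun e => K (blk e)) =
          (∑ i ∈ range (a + 1), K (blk (i :: (a - i) :: b :: l))) +
            SPn (b :: l) (fun s => K (blk (a :: s))) := rfl
      have h4 : SPn (b :: l) (fun s => K (blk (a :: s))) =
          SPn (b :: l) (fun s => K (List.replicate a 1 ++ 0 :: blk s)) :=
        SPn_congr _ _ _ fun e he => by rw [blk_cons he]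
      have h5 := ih (by simp) (fun t => K (List.replicate a 1 ++ 0 :: t))
      have h6 : K (blk (a :: (a - a) :: b :: l)) =
          K (List.replicate a 1 ++ 0 :: 0 :: blk (b :: l)) := by
        rw [Nat.sub_self]
        rfl
      rw [h3, h4, ← h5, sum_range_succ, h6, blk, ins_rep, ins, ← add_assoc]
      congr 1

/-- The relations of the insertion of `x₀`. -/
theorem SPn_zero {ψ : A} (h : IsDM ψ) (L : List ℕ) : SPn L (fun e => co ψ (blk e)) = 0 := by
  cases L with
  | nil => rfl
  | cons a L =>
    rw [← ins_blk (a :: L) (by simp), ← co_d0, R0.d0_dm ψ h.mem h.c0, co_zero]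

theorem SP_eq {R : Type} [CommRing R] (B : ℕ) (L : List ℕ) : ∀ K : List ℕ → R,
    (∀ e : List ℕ, B ≤ e.sum → K e = 0) → SP B L K = SPn L K := by
  induction L with
  | nil => intro K _; rfl
  | cons c e ih =>
    intro K hK
    rw [SP, SPn, ih _ (fun s hs => hK _ (by simp; omega))]
    congr 1
    rcases Nat.lt_or_ge c B with h | h
    · have e1 : ∀ a ∈ range B, (∑ b ∈ range B, if a + b = c then K (a :: b :: e) else 0) =
          if a ≤ c then K (a :: (c - a) :: e) else 0 := by
        intro a _
        by_cases hac : a ≤ c
        · rw [if_pos hac, sum_eq_single_of_mem (c - a) (mem_range.2 (by omega))]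
          · rw [if_pos (by omega)]
          · intro b _ hb
            rw [if_neg (by omega)]
        · rw [if_neg hac]
          refine sum_eq_zero fun b _ => ?_
          rw [if_neg (by omega)]
      rw [sum_congr rfl e1, ← sum_subset (range_subset_range.2 (show c + 1 ≤ B by omega))]
      · refine sum_congr rfl fun i hi => ?_
        rw [if_pos (by have := mem_range.1 hi; omega)]
      · intro a _ ha
        rw [if_neg (by intro h'; exact ha (mem_range.2 (by omega)))]
    · have e2 : ∑ i ∈ range (c + 1), K (i :: (c - i) :: e) = 0 := by
        refine sum_eq_zero fun i hi => hK _ ?_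
        have := mem_range.1 hi
        simp
        omega
      rw [e2]
      refine sum_eq_zero fun a _ => sum_eq_zero fun b _ => ?_
      by_cases hab : a + b = c
      · rw [if_pos hab]
        exact hK _ (by simp; omega)
      · rw [if_neg hab]

theorem blk_length (L : List ℕ) : L.sum ≤ (blk L).length := by
  induction L with
  | nil => simp
  | cons a L ih =>
    cases L with
    | nil => simp [blk]
    | cons b l =>
      rw [blk, List.length_append, List.length_replicate, List.length_cons, List.sum_cons]
      omega

variable {R : Type} [CommRing R] [Algebra ℚ R]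

/-- the coefficients in `R` -/
noncomputable def Fc (R : Type) [CommRing R] [Algebra ℚ R] (ψ : A) (e : List ℕ) : R :=
  algebraMap ℚ R (co ψ (blk e))

theorem Fc_zero {ψ : A} {N : ℕ} (hN : LenHom ψ N) (e : List ℕ) (he : N + 1 ≤ e.sum) :
    Fc R ψ e = 0 := by
  unfold Fc
  by_cases h : co ψ (blk e) = 0
  · rw [h, map_zero]
  · have := hN _ h
    have := blk_length e
    omega

theorem SPn_map (L : List ℕ) : ∀ K : List ℕ → ℚ,
    SPn L (fun e => algebraMap ℚ R (K e)) = algebraMap ℚ R (SPn L K) := by
  induction L with
  | nil => intro K; rw [SPn, SPn, map_zero]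
  | cons c L ih => intro K; rw [SPn, SPn, map_add, map_sum, ih]

theorem ins_map (b : ℕ) (L : List ℕ) : ∀ K : List ℕ → ℚ,
    ins b L (fun e => algebraMap ℚ R (K e)) = algebraMap ℚ R (IN b L K) := by
  induction L with
  | nil => intro K; rw [ins, IN]
  | cons c L ih => intro K; rw [ins, IN, map_add, ih]

theorem du_zero {ψ : A} {N : ℕ} (h : IsDM ψ) (hN : LenHom ψ N) (ys : List R) :
    du (ys.map P) (fun w => sm (N + 1) w (Fc R ψ)) = 0 := by
  rw [sm_du _ _ _ (Fc_zero hN)]
  have : (fun e => SP (N + 1) e (Fc R ψ)) = fun _ => (0 : R) := by
    funext e
    rw [SP_eq _ _ _ (Fc_zero hN)]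
    unfold Fc
    rw [SPn_map, SPn_zero h, map_zero]
  rw [this, sm_zero]

end Pool.Agent.U54.MT
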