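import Mathlib

/-! Sums over refinements of lists (used for the lowest part of elements of `dm`). -/

set_option autoImplicit false

namespace Pool.Agent.U54.MT

variable {R : Type} [CommRing R] {V : Type}

/-- the sum over the insertions of `a` -/
def ins {α : Type} (a : α) : List α → (List α → R) → R
  | [], K => K [a]
  | b :: t, K => K (a :: b :: t) + ins a t (fun s => K (b :: s))

/-- the sum over the duplications of one entry -/
def du {α : Type} : List α → (List α → R) → R
  | [], _ => 0
  | y :: t, K => K (y :: y :: t) + du t (fun s => K (y :: s))

/-- the sum over the lists of length `m` in which each entry of the given list is repeated at least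
once -/
def RR {α : Type} : ℕ → List α → (List α → R) → R
  | 0, [], K => K []
  | 0, _ :: _, _ => 0
  | _ + 1, [], _ => 0
  | m + 1, x :: xs, K => RR m xs (fun w => K (x :: w)) + RR m (x :: xs) (fun w => K (x :: w))

/-- the same; the last entry may be missing -/
def RP {α : Type} : ℕ → α → List α → (List α → R) → R
  | 0, _, [], K => K []
  | 0, _, _ :: _, _ => 0
  | m + 1, x, [], K => RP m x [] (fun w => K (x :: w))
  | m + 1, x, y :: ys, K => RP m x (y :: ys) (fun w => K (x :: w)) + RP m y ys (fun w => K (x :: w))

/-- the part of `RP` (with `x` replaced by `E + H x`) with `q` marked letters: the letters `H x` and the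
last letters of the blocks but the last one -/
def WW {α : Type} (E : V) (H : α → V) : ℕ → α → List α → ℕ → (List V → R) → R
  | 0, _, [], 0, K => K []
  | 0, _, [], _ + 1, _ => 0
  | 0, _, _ :: _, _, _ => 0
  | m + 1, x, xs, 0, K => WW E H m x xs 0 (fun w => K (E :: w))
  | m + 1, x, [], q + 1, K => WW E H m x [] (q + 1) (fun w => K (E :: w)) +
      WW E H m x [] q (fun w => K (H x :: w))
  | m + 1, x, y :: ys, q + 1, K => WW E H m x (y :: ys) (q + 1) (fun w => K (E :: w)) +
      WW E H m x (y :: ys) q (fun w => K (H x :: w)) +
      (WW E H m y ys q (fun w => K (E :: w)) + WW E H m y ys q (fun w => K (H x :: w)))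

theorem RP_eq {α : Type} (m : ℕ) : ∀ (x : α) (xs : List α) (K : List α → R),
    RP m x xs K = RR m (x :: xs) K + RR m ((x :: xs).dropLast) K := by
  induction m with
  | zero =>
    intro x xs K
    cases xs with
    | nil => simp [RP, RR]
    | cons y ys => simp [RP, RR]
  | succ m ih =>
    intro x xs K
    cases xs with
    | nil => simp [RP, RR, ih, add_comm]
    | cons y ys =>
      rw [RP, ih, ih, RR, List.dropLast_cons_cons, RR]
      ring

theorem du_add {α : Type} (w : List α) : ∀ K L : List α → R,
    du w (fun t => K t + L t) = du w K + du w L := by
  induction w with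
  | nil => intro K L; simp [du]
  | cons a w ih => intro K L; rw [du, du, du, ih]; ring

theorem RR_add {α : Type} (m : ℕ) : ∀ (xs : List α) (K L : List α → R),
    RR m xs (fun t => K t + L t) = RR m xs K + RR m xs L := by
  induction m with
  | zero => intro xs K L; cases xs <;> simp [RR]
  | succ m ih =>
    intro xs K L
    cases xs with
    | nil => simp [RR]
    | cons x xs => rw [RR, RR, RR, ih, ih]; ring

theorem RR_mul {α : Type} (c : R) (m : ℕ) : ∀ (xs : List α) (K : List α → R),
    RR m xs (fun t => c * K t) = c * RR m xs K := by
  induction m with
  | zero => intro xs K; cases xs <;> simp [RR]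
  | succ m ih =>
    intro xs K
    cases xs with
    | nil => simp [RR]
    | cons x xs => rw [RR, RR, ih, ih]; ring

theorem RR_congr {α : Type} (m : ℕ) : ∀ (xs : List α) (K L : List α → R),
    (∀ t, t.length = m → K t = L t) → RR m xs K = RR m xs L := by
  induction m with
  | zero =>
    intro xs K L h
    cases xs with
    | nil => rw [RR, RR]; exact h [] rfl
    | cons x xs => rfl
  | succ m ih =>
    intro xs K L h
    cases xs with
    | nil => rfl
    | cons x xs =>
      rw [RR, RR, ih xs _ (fun w => L (x :: w)) (fun t ht => h _ (by simp [ht])),
        ih (x :: xs) _ (fun w => L (x :: w)) (fun t ht => h _ (by simp [ht]))]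

theorem RR_du {α : Type} (m : ℕ) : ∀ (xs : List α) (K : List α → R),
    RR m xs (fun w => du w K) = ((m : R) + 1 - xs.length) * RR (m + 1) xs K := by
  induction m with
  | zero =>
    intro xs K
    cases xs with
    | nil => simp [RR, du]
    | cons x xs =>
      cases xs with
      | nil => simp [RR]
      | cons y ys => simp [RR]
  | succ m ih =>
    intro xs K
    cases xs with
    | nil => simp [RR]
    | cons x xs =>
      have e : ∀ zs : List α, RR m zs (fun w => du (x :: w) K) =
          RR m zs (fun w => K (x :: x :: w)) + RR m zs (fun w => du w (fun s => K (x :: s))) := by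
        intro zs
        rw [← RR_add]
        rfl
      rw [RR, e, e, ih, ih, RR, RR]
      have h3 : RR (m + 1) (x :: xs) (fun w => K (x :: w)) =
          RR m xs (fun w => K (x :: x :: w)) + RR m (x :: xs) (fun w => K (x :: x :: w)) := rfl
      simp only [List.length_cons]
      push_cast
      rw [h3]
      ring

theorem du_append_replicate {α : Type} (z : α) (b : ℕ) (w : List α) : ∀ K : List α → R,
    du (w ++ List.replicate b z) K = du w (fun t => K (t ++ List.replicate b z)) +
      b * K (w ++ List.replicate (b + 1) z) := by
  induction w with
  | nil =>
    intro K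
    rw [List.nil_append, du, zero_add, List.nil_append]
    induction b generalizing K with
    | zero => simp [du]
    | succ b ih =>
      rw [List.replicate_succ, du, ih]
      push_cast
      simp only [List.replicate_succ]
      ring
  | cons a w ih =>
    intro K
    rw [List.cons_append, du, ih, du]
    simp only [List.cons_append]
    ring

end Pool.Agent.U54.MT
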