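import Pool.Agent.U54.MT.D

/-! The moment theorem. -/

set_option autoImplicit false

namespace Pool.Agent.U54.MT

open Finset Pool.Agent.H777R4.DM Pool.Agent.R241.DL

variable {R : Type} [CommRing R]

theorem du_map {α β : Type} (g : α → β) (w : List α) : ∀ K : List β → R,
    du (w.map g) K = du w (fun t => K (t.map g)) := by
  induction w with
  | nil => intro K; rfl
  | cons a w ih => intro K; rw [List.map_cons, du, ih, du]; rfl

theorem RR_gt {α : Type} (m : ℕ) : ∀ (xs : List α) (K : List α → R), m < xs.length →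
    RR m xs K = 0 := by
  induction m with
  | zero =>
    intro xs K h
    cases xs with
    | nil => simp at h
    | cons x xs => rfl
  | succ m ih =>
    intro xs K h
    cases xs with
    | nil => simp at h
    | cons x xs =>
      rw [RR, ih _ _ (by simpa using h), ih _ _ (by simp at h ⊢; omega), add_zero]

theorem RR_self {α : Type} (xs : List α) : ∀ K : List α → R, RR xs.length xs K = K xs := by
  induction xs with
  | nil => intro K; rfl
  | cons x xs ih =>
    intro K
    rw [List.length_cons, RR, ih, RR_gt _ _ _ (by simp), add_zero]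

theorem sm_snoc (B : ℕ) (u : ℕ → R) (l : List (ℕ → R)) : ∀ K : List ℕ → R,
    sm B (l ++ [u]) K = sm B l (fun e => ∑ a ∈ range B, u a * K (e ++ [a])) := by
  induction l with
  | nil => intro K; rw [List.nil_append, sm, sm]; rfl
  | cons v l ih =>
    intro K
    rw [List.cons_append, sm, sm]
    refine sum_congr rfl fun a _ => ?_
    rw [ih]
    rfl

theorem sm_Z (B : ℕ) (l : List (ℕ → R)) (K : List ℕ → R) :
    sm (B + 1) (l ++ [P 0]) K = sm (B + 1) l (fun e => K (e ++ [0])) := by
  rw [sm_snoc]
  congr 1
  funext e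
  rw [sum_eq_single_of_mem 0 (mem_range.2 (by omega))]
  · simp [P]
  · intro a _ ha
    simp [P, ha]

theorem sm_Zs (B z : ℕ) : ∀ (l : List (ℕ → R)) (K : List ℕ → R),
    sm (B + 1) (l ++ List.replicate z (P 0)) K =
      sm (B + 1) l (fun e => K (e ++ List.replicate z 0)) := by
  induction z with
  | zero => intro l K; simp
  | succ z ih =>
    intro l K
    have h1 : l ++ List.replicate (z + 1) (P (0 : R)) = (l ++ [P 0]) ++ List.replicate z (P 0) := by
      simp [List.replicate_succ]
    rw [h1, ih, sm_Z]
    congr 1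
    funext e
    simp [List.replicate_succ]

theorem sm_ofFn (B r : ℕ) : ∀ (u : Fin r → ℕ → R) (K : List ℕ → R),
    sm B (List.ofFn u) K =
      ∑ a : Fin r → Fin B, (∏ i, u i (a i)) * K (List.ofFn fun i => (a i : ℕ)) := by
  induction r with
  | zero =>
    intro u K
    simp [sm]
  | succ r ih =>
    intro u K
    rw [List.ofFn_succ, sm, Finset.sum_range]
    rw [← (Fin.consEquiv fun _ : Fin (r + 1) => Fin B).sum_comp, Fintype.sum_prod_type]
    refine sum_congr rfl fun a _ => ?_
    rw [ih, mul_sum]
    refine sum_congr rfl fun b _ => ?_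
    rw [Fin.prod_univ_succ, List.ofFn_succ]
    simp [Fin.consEquiv, mul_assoc]

variable [Algebra ℚ R]

theorem RR_sum {α ι : Type} (s : Finset ι) (c : ι → R) (m : ℕ) (xs : List α) (K : ι → List α → R) :
    RR m xs (fun t => ∑ a ∈ s, c a * K a t) = ∑ a ∈ s, c a * RR m xs (K a) := by
  classical
  induction s using Finset.induction_on with
  | empty =>
    have := RR_mul (0 : R) m xs (fun _ => (0 : R))
    simpa using this
  | insert a s ha ih =>
    rw [Finset.sum_insert ha, ← ih, ← RR_mul, ← RR_add]
    congr 1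
    funext t
    rw [Finset.sum_insert ha]

theorem sm_smul_sum (B : ℕ) (w : List (ℕ → R)) (c : ℕ → R) (K : ℕ → List ℕ → R) :
    sm B w (fun e => ∑ a ∈ range B, c a * K a e) = ∑ a ∈ range B, c a * sm B w (K a) := by
  rw [sm_sum]
  exact sum_congr rfl fun a _ => sm_mul _ _ _ _

theorem moment {ψ : A} {N m : ℕ} (h : IsDM ψ) (hN : LenHom ψ N)
    (hm : ∀ u, co ψ u ≠ 0 → m ≤ u.count 0) (h2 : 2 ≤ m) {I : Ideal R} (y v : R) {α : Type}
    (x : α → R) (hx : ∀ i, x i - y ∈ I) (is : List α) (z : ℕ) (hz : 1 ≤ z)
    (hr : is.length + z = m + 1) :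
    sm (N + 1) (is.map (fun j => P (x j)) ++ List.replicate z (P v)) (Fc R ψ) ∈ I ^ z := by
  have key : ∀ b, 1 ≤ b → b ≤ m → ((m - b : ℕ) + 1 - is.length : R) *
      RR (m - b + 1) is (fun w => sm (N + 1) (w.map (fun j => P (x j)) ++ List.replicate b (P v)) (Fc R ψ)) =
      -(b : R) * RR (m - b) is (fun w => sm (N + 1) (w.map (fun j => P (x j)) ++
        List.replicate (b + 1) (P v)) (Fc R ψ)) := by
    intro b _ _
    rw [← RR_du, ← RR_mul]
    congr 1
    funext w
    have h3 := du_zero (R := R) h hN (w.map x ++ List.replicate b v)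
    rw [List.map_append, List.map_replicate, List.map_map, du_append_replicate, du_map] at h3
    have h4 := eq_neg_of_add_eq_zero_left h3
    rw [neg_mul]
    exact h4
  have base : RR m is (fun w => sm (N + 1) (w.map (fun j => P (x j)) ++ List.replicate 1 (P v)) (Fc R ψ)) ∈
      I ^ z := by
    have h3 : ∀ a : ℕ, RR m is (fun w => sm (N + 1) (w.map fun j => P (x j)) (fun e => Fc R ψ (a :: e))) ∈
        I ^ (m + 1 - is.length) := fun a =>
      RR_mem (N + 1) x y hx (m := m) (by omega) (F := fun e => Fc R ψ (a :: e)) (by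
      intro b e he
      have h4 := blk_one h hN hm h2 a b e he
      have h5 := ins_map (R := R) b e (fun w => co ψ (blk (a :: w)))
      rw [h4, map_zero] at h5
      exact h5) _ is rfl
    have h6 : m + 1 - is.length = z := by omega
    rw [h6] at h3
    have h8 : RR m is (fun w => sm (N + 1) (w.map (fun j => P (x j)) ++ List.replicate 1 (P v)) (Fc R ψ)) =
        RR m is (fun w => ∑ a ∈ range (N + 1), P v a *
          sm (N + 1) (w.map fun j => P (x j)) (fun e => Fc R ψ (a :: e))) := by
      apply RR_congr
      intro w hw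
      rw [List.replicate_one, sm_snoc, ← sm_smul_sum]
      apply sm_congr
      intro e he
      refine sum_congr rfl fun a _ => ?_
      congr 1
      unfold Fc
      congr 1
      have h7 := blk_rot h hN hm h2 1 (a :: e) (by simp [he, hw])
      rw [← h7]
      simp
    rw [h8, RR_sum]
    exact Ideal.sum_mem _ fun a _ => Ideal.mul_mem_left _ _ (h3 a)
  have all : ∀ j, j + 1 ≤ z → RR (m - j) is (fun w => sm (N + 1) (w.map (fun j => P (x j)) ++
      List.replicate (j + 1) (P v)) (Fc R ψ)) ∈ I ^ z := by
    intro j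
    induction j with
    | zero => intro _; exact base
    | succ j ih =>
      intro hj
      have h3 := ih (by omega)
      have h4 := key (j + 1) (by omega) (by omega)
      rw [show m - (j + 1) + 1 = m - j by omega] at h4
      have h5 : -((j + 1 : ℕ) : R) * RR (m - (j + 1)) is (fun w => sm (N + 1) (w.map (fun j => P (x j)) ++
          List.replicate (j + 1 + 1) (P v)) (Fc R ψ)) ∈ I ^ z := by
        rw [← h4]
        exact Ideal.mul_mem_left _ _ h3
      have h6 := Ideal.mul_mem_left (I ^ z) (algebraMap ℚ R (-((j + 1 : ℕ) : ℚ)⁻¹)) h5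
      rw [← mul_assoc] at h6
      have h7 : algebraMap ℚ R (-((j + 1 : ℕ) : ℚ)⁻¹) * -((j + 1 : ℕ) : R) = 1 := by
        rw [map_neg, neg_mul_neg, ← map_natCast (algebraMap ℚ R), ← map_mul,
          inv_mul_cancel₀ (by positivity), map_one]
      rw [h7, one_mul] at h6
      exact h6
  have h8 := all (z - 1) (by omega)
  rw [show m - (z - 1) = is.length by omega, RR_self, show z - 1 + 1 = z by omega] at h8
  exact h8

end Pool.Agent.U54.MT
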