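import Pool.Agent.U54.MT.G

/-! Marked words. -/

set_option autoImplicit false

namespace Pool.Agent.U54.MT

variable {R : Type} [CommRing R] {V : Type} {α : Type} (E : V) (H : α → V)

theorem WW_s0 (m : ℕ) (x : α) (xs : List α) (K : List V → R) :
    WW E H (m + 1) x xs 0 K = WW E H m x xs 0 (fun w => K (E :: w)) := by rw [WW]

theorem WW_sn (m : ℕ) (x : α) (q : ℕ) (K : List V → R) :
    WW E H (m + 1) x [] (q + 1) K = WW E H m x [] (q + 1) (fun w => K (E :: w)) +
      WW E H m x [] q (fun w => K (H x :: w)) := by rw [WW]

theorem WW_sc (m : ℕ) (x y : α) (ys : List α) (q : ℕ) (K : List V → R) :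
    WW E H (m + 1) x (y :: ys) (q + 1) K = WW E H m x (y :: ys) (q + 1) (fun w => K (E :: w)) +
      WW E H m x (y :: ys) q (fun w => K (H x :: w)) +
      (WW E H m y ys q (fun w => K (E :: w)) + WW E H m y ys q (fun w => K (H x :: w))) := by
  rw [WW]

theorem WW_add (m : ℕ) : ∀ (x : α) (xs : List α) (q : ℕ) (K L : List V → R),
    WW E H m x xs q (fun t => K t + L t) = WW E H m x xs q K + WW E H m x xs q L := by
  induction m with
  | zero =>
    intro x xs q K L
    cases xs with
    | nil => cases q <;> simp [WW]
    | cons y ys => simp [WW]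
  | succ m ih =>
    intro x xs q K L
    cases q with
    | zero => rw [WW, WW, WW, ih]
    | succ q =>
      cases xs with
      | nil => rw [WW, WW, WW, ih, ih]; ring
      | cons y ys => rw [WW, WW, WW, ih, ih, ih, ih]; ring

theorem WW_mul (c : R) (m : ℕ) : ∀ (x : α) (xs : List α) (q : ℕ) (K : List V → R),
    WW E H m x xs q (fun t => c * K t) = c * WW E H m x xs q K := by
  induction m with
  | zero =>
    intro x xs q K
    cases xs with
    | nil => cases q <;> simp [WW]
    | cons y ys => simp [WW]
  | succ m ih =>
    intro x xs q K
    cases q with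
    | zero => rw [WW, WW, ih]
    | succ q =>
      cases xs with
      | nil => rw [WW, WW, ih, ih]; ring
      | cons y ys => rw [WW, WW, ih, ih, ih, ih]; ring

theorem WW_zero (m : ℕ) (x : α) (xs : List α) (q : ℕ) :
    WW E H m x xs q (fun _ => (0 : R)) = 0 := by
  have := WW_mul E H (0 : R) m x xs q (fun _ => (0 : R))
  simpa using this

theorem WW_sum {ι : Type} (s : Finset ι) (c : ι → R) (m : ℕ) (x : α) (xs : List α) (q : ℕ)
    (K : ι → List V → R) :
    WW E H m x xs q (fun t => ∑ a ∈ s, c a * K a t) = ∑ a ∈ s, c a * WW E H m x xs q (K a) := by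
  classical
  induction s using Finset.induction_on with
  | empty => simp [WW_zero]
  | insert a s ha ih =>
    rw [Finset.sum_insert ha, ← ih, ← WW_mul, ← WW_add]
    congr 1
    funext t
    rw [Finset.sum_insert ha]

theorem WW_congr (m : ℕ) : ∀ (x : α) (xs : List α) (q : ℕ) (K L : List V → R),
    (∀ t, t.length = m → K t = L t) → WW E H m x xs q K = WW E H m x xs q L := by
  induction m with
  | zero =>
    intro x xs q K L h
    cases xs with
    | nil =>
      cases q with
      | zero => rw [WW, WW]; exact h [] rfl
      | succ q => rfl
    | cons y ys => rfl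
  | succ m ih =>
    intro x xs q K L h
    have h1 : ∀ (v : V) (z : α) (zs : List α) (q : ℕ), WW E H m z zs q (fun w => K (v :: w)) =
        WW E H m z zs q (fun w => L (v :: w)) := by
      intro v z zs q
      exact ih z zs q _ _ (fun t ht => h _ (by simp [ht]))
    cases q with
    | zero => rw [WW, WW, h1]
    | succ q =>
      cases xs with
      | nil => rw [WW, WW, h1, h1]
      | cons y ys => rw [WW, WW, h1, h1, h1, h1]

theorem WW_gt (m : ℕ) : ∀ (x : α) (xs : List α) (q : ℕ) (K : List V → R), m < q →
    WW E H m x xs q K = 0 := by
  induction m with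
  | zero =>
    intro x xs q K h
    cases xs with
    | nil =>
      cases q with
      | zero => omega
      | succ q => rfl
    | cons y ys => rfl
  | succ m ih =>
    intro x xs q K h
    cases q with
    | zero => omega
    | succ q =>
      cases xs with
      | nil => rw [WW, ih _ _ _ _ (by omega), ih _ _ _ _ (by omega), add_zero]
      | cons y ys =>
        rw [WW, ih _ _ _ _ (by omega), ih _ _ _ _ (by omega), ih _ _ _ _ (by omega),
          ih _ _ _ _ (by omega)]
        simp

theorem WW_ins (m : ℕ) : ∀ (x : α) (xs : List α) (q : ℕ) (K : List V → R),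
    WW E H m x xs q (fun t => ins E t K) = ((m : R) + 1 - q) * WW E H (m + 1) x xs q K := by
  induction m with
  | zero =>
    intro x xs q K
    cases xs with
    | nil =>
      cases q with
      | zero => simp [WW, ins]
      | succ q =>
        cases q with
        | zero => simp [WW]
        | succ q => simp [WW]
    | cons y ys =>
      cases q with
      | zero => simp [WW]
      | succ q =>
        cases q with
        | zero => simp [WW]
        | succ q =>
          cases ys with
          | nil => simp [WW]
          | cons z zs => simp [WW]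
  | succ m ih =>
    intro x xs q K
    have e : ∀ (v : V) (z : α) (zs : List α) (q : ℕ), WW E H m z zs q (fun w => ins E (v :: w) K) =
        WW E H m z zs q (fun w => K (E :: v :: w)) +
          ((m : R) + 1 - q) * WW E H (m + 1) z zs q (fun s => K (v :: s)) := by
      intro v z zs q
      rw [← ih, ← WW_add]
      rfl
    cases q with
    | zero =>
      rw [WW_s0, e, WW_s0 E H (m + 1)]
      have h3 := WW_s0 E H m x xs (fun w => K (E :: w))
      rw [h3]
      push_cast
      ring
    | succ q =>
      cases xs with
      | nil =>
        rw [WW_sn, e, e, WW_sn E H (m + 1)]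
        have h3 := WW_sn E H m x q (fun w => K (E :: w))
        rw [h3]
        push_cast
        ring
      | cons y ys =>
        rw [WW_sc, e, e, e, e, WW_sc E H (m + 1)]
        have h3 := WW_sc E H m x y ys q (fun w => K (E :: w))
        rw [h3]
        push_cast
        ring

/-- additive in each entry -/
def MA [Add V] (K : List V → R) : Prop := ∀ l u v t, K (l ++ (u + v) :: t) = K (l ++ u :: t) + K (l ++ v :: t)

theorem MA.cons [Add V] {K : List V → R} (h : MA K) (w : V) : MA (fun t => K (w :: t)) := by
  intro l u v t
  exact h (w :: l) u v t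

theorem RP_sum [Add V] (m : ℕ) : ∀ (x : α) (xs : List α) (K : List V → R), MA K →
    RP m x xs (fun w => K (w.map fun a => E + H a)) = ∑ q ∈ Finset.range (m + 1), WW E H m x xs q K := by
  have hadd : ∀ (m : ℕ) (x : α) (xs : List α) (K L : List α → R),
      RP m x xs (fun t => K t + L t) = RP m x xs K + RP m x xs L := by
    intro m
    induction m with
    | zero => intro x xs K L; cases xs <;> simp [RP]
    | succ m ih =>
      intro x xs K L
      cases xs with
      | nil => rw [RP, RP, RP, ih]
      | cons y ys => rw [RP, RP, RP, ih, ih]; ring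
  induction m with
  | zero =>
    intro x xs K _
    cases xs with
    | nil => simp [RP, WW]
    | cons y ys => simp [RP, WW]
  | succ m ih =>
    intro x xs K hK
    have e : ∀ (z : α) (zs : List α), RP m z zs (fun w => K ((x :: w).map fun a => E + H a)) =
        ∑ q ∈ Finset.range (m + 1), (WW E H m z zs q (fun w => K (E :: w)) +
          WW E H m z zs q (fun w => K (H x :: w))) := by
      intro z zs
      rw [Finset.sum_add_distrib, ← ih z zs _ (hK.cons E), ← ih z zs _ (hK.cons (H x)), ← hadd]
      congr 1
      funext w
      exact hK [] E (H x) (w.map fun a => E + H a)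
    rw [Finset.sum_range_succ']
    cases xs with
    | nil =>
      have h4 : ∑ q ∈ Finset.range (m + 1), WW E H m x [] (q + 1) (fun w => K (E :: w)) +
          WW E H m x [] 0 (fun w => K (E :: w)) =
          ∑ q ∈ Finset.range (m + 1), WW E H m x [] q (fun w => K (E :: w)) := by
        have h5 := Finset.sum_range_succ' (fun q => WW E H m x [] q (fun w => K (E :: w))) (m + 1)
        rw [← h5, Finset.sum_range_succ _ (m + 1), WW_gt E H m x [] (m + 1) _ (by omega), add_zero]
      rw [RP, e]
      simp only [WW_s0, WW_sn]
      rw [Finset.sum_add_distrib, Finset.sum_add_distrib, ← h4]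
      ring
    | cons y ys =>
      have h4 : ∑ q ∈ Finset.range (m + 1), WW E H m x (y :: ys) (q + 1) (fun w => K (E :: w)) +
          WW E H m x (y :: ys) 0 (fun w => K (E :: w)) =
          ∑ q ∈ Finset.range (m + 1), WW E H m x (y :: ys) q (fun w => K (E :: w)) := by
        have h5 := Finset.sum_range_succ' (fun q => WW E H m x (y :: ys) q (fun w => K (E :: w))) (m + 1)
        rw [← h5, Finset.sum_range_succ _ (m + 1), WW_gt E H m x (y :: ys) (m + 1) _ (by omega), add_zero]
      rw [RP, e, e]
      simp only [WW_s0, WW_sc, Finset.sum_add_distrib]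
      rw [← h4]
      ring

end Pool.Agent.U54.MT
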